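import Pool.Agent.helper80.VQ.SpecFL

/-!
# Project VQ (MP_07c750_an), row EX1: the explicit formulas for the extension of the fields
-/

set_option autoImplicit false

open scoped MatrixGroups ContDiff Topology UpperHalfPlane ComplexConjugate ENNReal
open UpperHalfPlane MeasureTheory Filter Set

namespace Pool.Agent.VQ

open Pool.Agent.RS
open Pool.Agent.VQE (nm)

noncomputable section

/-- the denominator -/
def EX1_dn (x : F4) : ℂ := (x 2 : ℂ) * Complex.I + (x 3 : ℂ)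

/-- the base point -/
def EX1_z (x : F4) : ℂ := ((x 0 : ℂ) * Complex.I + (x 1 : ℂ)) / EX1_dn x

theorem EX1_dn_ne (x : F4) (hx : 0 < dt4 x) : EX1_dn x ≠ 0 := by
  intro h
  have h2 : x 2 = 0 := by
    have := congrArg Complex.im h
    simpa [EX1_dn] using this
  have h3 : x 3 = 0 := by
    have := congrArg Complex.re h
    simpa [EX1_dn] using this
  unfold dt4 at hx
  rw [h2, h3] at hx
  simp at hx

theorem EX1_im (x : F4) (hx : 0 < dt4 x) : 0 < (EX1_z x).im := by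
  have hn : 0 < Complex.normSq (EX1_dn x) := Complex.normSq_pos.2 (EX1_dn_ne x hx)
  have h : (EX1_z x).im = dt4 x / Complex.normSq (EX1_dn x) := by
    unfold EX1_z
    rw [Complex.div_im]
    have e1 : ((x 0 : ℂ) * Complex.I + (x 1 : ℂ)).im = x 0 := by simp
    have e2 : ((x 0 : ℂ) * Complex.I + (x 1 : ℂ)).re = x 1 := by simp
    have e3 : (EX1_dn x).im = x 2 := by simp [EX1_dn]
    have e4 : (EX1_dn x).re = x 3 := by simp [EX1_dn]
    rw [e1, e2, e3, e4]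
    unfold dt4
    ring
  rw [h]
  exact div_pos hx hn

theorem EX1_smooth_c (i : Fin 4) : ContDiff ℝ ∞ (fun x : F4 => ((x i : ℝ) : ℂ)) :=
  Complex.ofRealCLM.contDiff.comp (contDiff_apply ℝ ℝ i)

theorem EX1_smooth_dn : ContDiff ℝ ∞ EX1_dn :=
  ((EX1_smooth_c 2).mul contDiff_const).add (EX1_smooth_c 3)

theorem EX1_smooth_z : ContDiffOn ℝ ∞ EX1_z {x | 0 < dt4 x} := by
  have h1 : ContDiffOn ℝ ∞ (fun x : F4 => (x 0 : ℂ) * Complex.I + (x 1 : ℂ)) {x | 0 < dt4 x} :=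
    (((EX1_smooth_c 0).mul contDiff_const).add (EX1_smooth_c 1)).contDiffOn
  have h2 : ContDiffOn ℝ ∞ (fun x : F4 => (EX1_dn x)⁻¹) {x | 0 < dt4 x} :=
    EX1_smooth_dn.contDiffOn.inv fun x hx => EX1_dn_ne x hx
  exact (h1.mul h2).congr fun x _ => div_eq_mul_inv _ _

theorem EX1_smooth_dt : ContDiff ℝ ∞ (fun x : F4 => ((dt4 x : ℝ) : ℂ)) := by
  refine Complex.ofRealCLM.contDiff.comp (f := dt4) ?_
  exact ((contDiff_apply ℝ ℝ (0 : Fin 4)).mul (contDiff_apply ℝ ℝ (3 : Fin 4))).sub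
    ((contDiff_apply ℝ ℝ (1 : Fin 4)).mul (contDiff_apply ℝ ℝ (2 : Fin 4)))

theorem EX1_open : IsOpen {w : ℂ | 0 < w.im} := isOpen_lt continuous_const Complex.continuous_im

/-- the frame at `g` -/
theorem EX1_coe (g : SL(2, ℝ)) (z : ℍ) : ((g • z : ℍ) : ℂ) =
    ((g.1 0 0 : ℂ) * (z : ℂ) + (g.1 0 1 : ℂ)) / ((g.1 1 0 : ℂ) * (z : ℂ) + (g.1 1 1 : ℂ)) := by
  rw [UpperHalfPlane.coe_specialLinearGroup_apply]
  simp

theorem EX1_den_ne (g : SL(2, ℝ)) : (g.1 1 0 : ℂ) * Complex.I + (g.1 1 1 : ℂ) ≠ 0 := by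
  intro h
  have h2 : g.1 1 0 = 0 := by
    have := congrArg Complex.im h
    simpa using this
  have h3 : g.1 1 1 = 0 := by
    have := congrArg Complex.re h
    simpa using this
  have hd := g.2
  rw [Matrix.det_fin_two, h2, h3] at hd
  simp at hd

theorem EX1_deriv (hVCD : VCD_stmt) (g : SL(2, ℝ)) :
    HasDerivAt (fun v : ℂ => ((g • cdi v : ℍ) : ℂ)) (Complex.I / ((g.1 1 0 : ℂ) * Complex.I + (g.1 1 1 : ℂ)) ^ 2) 0 := by
  have hw : HasDerivAt (fun v : ℂ => Complex.I * (2 + v) / (2 - v)) Complex.I 0 := by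
    have h1 : HasDerivAt (fun v : ℂ => Complex.I * (2 + v)) (Complex.I * 1) 0 :=
      ((hasDerivAt_id (0 : ℂ)).const_add 2).const_mul Complex.I
    have h2 : HasDerivAt (fun v : ℂ => (2 : ℂ) - v) (-1) 0 := (hasDerivAt_id (0 : ℂ)).const_sub 2
    refine (h1.div h2 (by norm_num)).congr_deriv ?_
    norm_num
    ring
  have hd := EX1_den_ne g
  have hdet : (g.1 0 0 : ℂ) * (g.1 1 1 : ℂ) - (g.1 0 1 : ℂ) * (g.1 1 0 : ℂ) = 1 := by
    have h := g.2
    rw [Matrix.det_fin_two] at h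
    exact_mod_cast h
  have hw0 : Complex.I * (2 + (0 : ℂ)) / (2 - 0) = Complex.I := by norm_num
  have hm : HasDerivAt (fun v : ℂ => ((g.1 0 0 : ℂ) * (Complex.I * (2 + v) / (2 - v)) + (g.1 0 1 : ℂ)) /
      ((g.1 1 0 : ℂ) * (Complex.I * (2 + v) / (2 - v)) + (g.1 1 1 : ℂ)))
      (Complex.I / ((g.1 1 0 : ℂ) * Complex.I + (g.1 1 1 : ℂ)) ^ 2) 0 := by
    have h1 := (hw.const_mul (g.1 0 0 : ℂ)).add_const (g.1 0 1 : ℂ)
    have h2 := (hw.const_mul (g.1 1 0 : ℂ)).add_const (g.1 1 1 : ℂ)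
    refine (h1.div h2 (by rw [hw0]; exact hd)).congr_deriv ?_
    rw [hw0]
    congr 1
    linear_combination Complex.I * hdet
  refine hm.congr_of_eventuallyEq ?_
  filter_upwards [Metric.ball_mem_nhds (0 : ℂ) two_pos] with v hv
  rw [mem_ball_zero_iff] at hv
  rw [EX1_coe, (hVCD.2.1 v hv).2]

theorem EX1_proof (hVCD : VCD_stmt) : EX1_stmt := by
  intro U hU'
  have hU : ContDiffOn ℝ ∞ (QU.onC U) {w : ℂ | 0 < w.im} := hU'
  have hU1 : ContDiffOn ℝ ∞ (fderiv ℝ (QU.onC U)) {w : ℂ | 0 < w.im} :=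
    ContDiffOn.fderiv_of_isOpen hU EX1_open (by simp)
  have hmaps : MapsTo EX1_z {x | 0 < dt4 x} {w : ℂ | 0 < w.im} := fun x hx => EX1_im x hx
  have hcu : ContDiffOn ℝ ∞ (QU.onC U ∘ EX1_z) {x | 0 < dt4 x} := hU.comp EX1_smooth_z hmaps
  refine ⟨fun x => QU.onC U (EX1_z x), fun x => fderiv ℝ (QU.onC U) (EX1_z x) (-((dt4 x : ℝ) : ℂ) / EX1_dn x ^ 2),
    hcu, ?_, ?_⟩
  · refine ContDiffOn.clm_apply (ContDiffOn.comp hU1 EX1_smooth_z hmaps) ?_
    have h2 : ContDiffOn ℝ ∞ (fun x : F4 => (EX1_dn x ^ 2)⁻¹) {x | 0 < dt4 x} :=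
      (EX1_smooth_dn.pow 2).contDiffOn.inv fun x hx => pow_ne_zero 2 (EX1_dn_ne x hx)
    exact (EX1_smooth_dt.neg.contDiffOn.mul h2).congr fun x _ => div_eq_mul_inv _ _
  · intro l g hl
    have hl' : (l : ℂ) ≠ 0 := by exact_mod_cast hl.ne'
    have hd := EX1_den_ne g
    have hdet : (g.1 0 0 : ℂ) * (g.1 1 1 : ℂ) - (g.1 0 1 : ℂ) * (g.1 1 0 : ℂ) = 1 := by
      have h := g.2
      rw [Matrix.det_fin_two] at h
      exact_mod_cast h
    have e0 : EX1_dn (l • m4 g) = (l : ℂ) * ((g.1 1 0 : ℂ) * Complex.I + (g.1 1 1 : ℂ)) := by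
      simp [EX1_dn, m4]
      ring
    have e1 : EX1_z (l • m4 g) = ((g • I : ℍ) : ℂ) := by
      rw [EX1_coe, UpperHalfPlane.coe_I]
      unfold EX1_z
      rw [e0]
      have e2 : (((l • m4 g) 0 : ℝ) : ℂ) * Complex.I + (((l • m4 g) 1 : ℝ) : ℂ) =
          (l : ℂ) * ((g.1 0 0 : ℂ) * Complex.I + (g.1 0 1 : ℂ)) := by
        simp [m4]
        ring
      rw [e2, mul_div_mul_left _ _ hl']
    have e3 : ((dt4 (l • m4 g) : ℝ) : ℂ) = (l : ℂ) ^ 2 := by
      have h : dt4 (l • m4 g) = l ^ 2 * (g.1 0 0 * g.1 1 1 - g.1 0 1 * g.1 1 0) := by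
        simp [dt4, m4]
        ring
      have h2 := g.2
      rw [Matrix.det_fin_two] at h2
      rw [h, h2]
      push_cast
      ring
    have e4 : (-((dt4 (l • m4 g) : ℝ) : ℂ) / EX1_dn (l • m4 g) ^ 2) =
        -1 / ((g.1 1 0 : ℂ) * Complex.I + (g.1 1 1 : ℂ)) ^ 2 := by
      rw [e3, e0]
      field_simp
    refine ⟨?_, ?_⟩
    · show QU.onC U (EX1_z (l • m4 g)) = U (g • I)
      rw [e1]
      unfold QU.onC
      rw [UpperHalfPlane.ofComplex_apply]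
    · show fderiv ℝ (QU.onC U) (EX1_z (l • m4 g)) (-((dt4 (l • m4 g) : ℝ) : ℂ) / EX1_dn (l • m4 g) ^ 2) = n2 U g
      rw [e1, e4]
      have hc : Ug U g = QU.onC U ∘ fun v : ℂ => ((g • cdi v : ℍ) : ℂ) := by
        funext v
        show U (g • cdi v) = U (ofComplex ((g • cdi v : ℍ) : ℂ))
        rw [UpperHalfPlane.ofComplex_apply]
      have h0 : (((g • cdi 0 : ℍ)) : ℂ) = ((g • I : ℍ) : ℂ) := by
        rw [EX1_coe, EX1_coe, (hVCD.2.1 0 (by simp)).2, UpperHalfPlane.coe_I]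
        norm_num
      have hdU : DifferentiableAt ℝ (QU.onC U) (((g • cdi 0 : ℍ)) : ℂ) := by
        have h1 : ContDiffAt ℝ ∞ (QU.onC U) (((g • cdi 0 : ℍ)) : ℂ) :=
          ContDiffOn.contDiffAt hU (EX1_open.mem_nhds (g • cdi 0).im_pos)
        exact h1.differentiableAt (by simp)
      have hφ := (EX1_deriv hVCD g).hasFDerivAt.restrictScalars ℝ
      have hcomp := hdU.hasFDerivAt.comp (0 : ℂ) hφ
      unfold n2
      rw [hc, hcomp.fderiv, h0]
      simp only [ContinuousLinearMap.comp_apply, ContinuousLinearMap.coe_restrictScalars']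
      congr 1
      simp
      ring_nf
      simp
      try ring

end

end Pool.Agent.VQ
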