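import Pool.Agent.helper55.VQ.SpecD

/-!
# Project VQ (MP_07c750_an), row EDY: the phases
-/

set_option autoImplicit false

open scoped MatrixGroups ContDiff Topology UpperHalfPlane ComplexConjugate ENNReal
open UpperHalfPlane MeasureTheory Filter Set

namespace Pool.Agent.VQ

open Pool.Agent.RS
open Pool.Agent.RPQ (CEig mean VV IsOp)

theorem EDY_num : ∃ R0 : ℝ, ∀ R : ℝ, R0 ≤ R →
    R / 2 * (3 * R ^ (-(99 / 100) : ℝ) * R ^ (-(1 / 3) : ℝ) * Real.log R) ≤ R ^ (-(1 / 4) : ℝ) := by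
  have h := (isLittleO_log_rpow_atTop (by norm_num : (0 : ℝ) < 1 / 20)).bound (by norm_num : (0 : ℝ) < 2 / 3)
  obtain ⟨R0, hR0⟩ := Filter.eventually_atTop.1 h
  refine ⟨max R0 1, fun R hR => ?_⟩
  have h1 : 1 ≤ R := (le_max_right _ _).trans hR
  have h0 : 0 < R := by linarith
  have h2 := hR0 R ((le_max_left _ _).trans hR)
  rw [Real.norm_of_nonneg (Real.log_nonneg h1), Real.norm_of_nonneg (Real.rpow_nonneg h0.le _)] at h2
  have e1 : R / 2 * (3 * R ^ (-(99 / 100) : ℝ) * R ^ (-(1 / 3) : ℝ) * Real.log R) =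
      3 / 2 * (R ^ (1 : ℝ) * R ^ (-(99 / 100) : ℝ) * R ^ (-(1 / 3) : ℝ)) * Real.log R := by
    rw [Real.rpow_one]
    ring
  rw [e1, ← Real.rpow_add h0, ← Real.rpow_add h0]
  have h3 : 3 / 2 * R ^ ((1 : ℝ) + -(99 / 100) + -(1 / 3)) * Real.log R ≤
      3 / 2 * R ^ ((1 : ℝ) + -(99 / 100) + -(1 / 3)) * (2 / 3 * R ^ (1 / 20 : ℝ)) :=
    mul_le_mul_of_nonneg_left h2 (by positivity)
  refine h3.trans ?_
  have e2 : 3 / 2 * R ^ ((1 : ℝ) + -(99 / 100) + -(1 / 3)) * (2 / 3 * R ^ (1 / 20 : ℝ)) =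
      R ^ ((1 : ℝ) + -(99 / 100) + -(1 / 3)) * R ^ (1 / 20 : ℝ) := by ring
  rw [e2, ← Real.rpow_add h0]
  exact Real.rpow_le_rpow_of_exponent_le h1 (by norm_num)

theorem EDY_win (R : ℝ) (hR : 65536 ≤ R) (p : SL(2, ℝ) × ℝ) (hp : p ∈ GW 2 R) : |p.2| ≤ 1 / 8 := by
  have h1 : p.2 ∈ Wi 2 R := hp.2
  have h2 : |p.2| ≤ 2 * R ^ (-(1 / 4) : ℝ) := abs_le.2 ⟨h1.1, h1.2⟩
  refine h2.trans ?_
  have h3 : R ^ (-(1 / 4) : ℝ) ≤ (65536 : ℝ) ^ (-(1 / 4) : ℝ) :=
    Real.rpow_le_rpow_of_nonpos (by norm_num) hR (by norm_num)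
  have h4 : (65536 : ℝ) ^ (-(1 / 4) : ℝ) = 1 / 16 := by
    have h5 : (65536 : ℝ) = (16 : ℝ) ^ (4 : ℝ) := by norm_num
    rw [h5, ← Real.rpow_mul (by norm_num)]
    norm_num
  rw [h4] at h3
  linarith

theorem EDY_cont {Γ : Subgroup SL(2, ℝ)} {δ : ℝ} {B : ℕ → ℝ} {D : Dyn} (hD : OKD Γ δ B D) (G : ℍ → ℝ) (hG : Continuous G)
    (E : ℝ) (hE : |E| ≤ 1 / 8) (g : SL(2, ℝ)) : Continuous fun s : ℝ => G (D.fl E s g • I) := by
  have h1 : Continuous fun s : ℝ => D.fl E s g :=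
    hD.cfl.comp_continuous (f := fun s : ℝ => ((E, s, g) : ℝ × ℝ × SL(2, ℝ))) (by fun_prop) fun _ => hE
  exact hG.comp (h1.smul continuous_const)

theorem EDY_proof (hEDG : EDG_stmt) (hEDL : EDL_stmt) (hHFA : HFA_stmt) : EDY_stmt := by
  obtain ⟨C, hC, hG⟩ := hEDG
  refine ⟨C, hC, fun B A hA => ?_⟩
  obtain ⟨R1, hR1, hG⟩ := hG B A hA
  obtain ⟨R2, hR2⟩ := EDY_num
  refine ⟨max (max R1 R2) 65536, le_trans (by norm_num) (le_max_right _ _), ?_⟩
  intro R δ Γ D f hR hD hδ hf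
  have hRR1 : R1 ≤ R := ((le_max_left _ _).trans (le_max_left _ _)).trans hR
  have hRR2 : R2 ≤ R := ((le_max_right _ _).trans (le_max_left _ _)).trans hR
  have hR3 : 65536 ≤ R := (le_max_right _ _).trans hR
  have hR4 : 1 ≤ R := by linarith
  have hR0 : 0 < R := by linarith
  obtain ⟨-, -, hinv, -, hlip⟩ := hEDL Γ δ R B D f hR4 hD hδ hf
  have hcG : Continuous (fun z => D.U z * f z) := hinv.1
  have hcont := fun (E : ℝ) (hE : |E| ≤ 1 / 8) (g : SL(2, ℝ)) => EDY_cont hD _ hcG E hE g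
  refine ⟨?_, ?_⟩
  · intro s t p hp
    have hE := EDY_win R hR3 p hp
    have hc := hcont p.2 hE p.1
    unfold thP
    have h1 : ∫ u in (0 : ℝ)..t, D.U (D.fl (D.ph s p).2 u (D.ph s p).1 • I) * f (D.fl (D.ph s p).2 u (D.ph s p).1 • I) =
        ∫ u in s..(s + t), D.U (D.fl p.2 u p.1 • I) * f (D.fl p.2 u p.1 • I) := by
      have h2 := intervalIntegral.integral_comp_add_right (a := 0) (b := t)
        (fun u => D.U (D.fl p.2 u p.1 • I) * f (D.fl p.2 u p.1 • I)) s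
      rw [zero_add, add_comm t s] at h2
      rw [← h2]
      refine intervalIntegral.integral_congr fun u _ => ?_
      show D.U (D.fl p.2 u (D.fl p.2 s p.1) • I) * f (D.fl p.2 u (D.fl p.2 s p.1) • I) = _
      rw [← (hHFA Γ δ B D hD hδ p.2 u s hE p.1).1]
    rw [h1, ← mul_add]
    congr 1
    exact (intervalIntegral.integral_add_adjacent_intervals (hc.intervalIntegrable _ _) (hc.intervalIntegrable _ _)).symm
  · intro t p q hp hq hpq ht htu
    have hEp := EDY_win R hR3 p hp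
    have hEq := EDY_win R hR3 q hq
    have hcp := hcont p.2 hEp p.1
    have hcq := hcont q.2 hEq q.1
    unfold thP
    rw [← mul_sub, ← intervalIntegral.integral_sub (hcp.intervalIntegrable _ _) (hcq.intervalIntegrable _ _), abs_mul,
      abs_of_pos (by positivity : 0 < R / 2)]
    have h1 : ‖∫ u in (0 : ℝ)..t, (D.U (D.fl p.2 u p.1 • I) * f (D.fl p.2 u p.1 • I) -
        D.U (D.fl q.2 u q.1 • I) * f (D.fl q.2 u q.1 • I))‖ ≤ 3 * R ^ (-(99 / 100) : ℝ) * R ^ (-(1 / 3) : ℝ) * |t - 0| := by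
      refine intervalIntegral.norm_integral_le_of_norm_le_const fun u hu => ?_
      rw [uIoc_of_le ht] at hu
      rw [Real.norm_eq_abs]
      refine (hlip _ _).trans ?_
      exact mul_le_mul_of_nonneg_left (hG R δ u Γ D p q hRR1 hD hδ hp hq hpq hu.1.le (hu.2.trans htu)) (by positivity)
    rw [Real.norm_eq_abs, sub_zero, abs_of_nonneg ht] at h1
    have h2 : t ≤ Real.log R := by
      refine htu.trans ?_
      have h3 := hA.tu
      have h4 : 0 ≤ Real.log R := Real.log_nonneg hR4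
      have h5 : A.tu R = A.m * A.e3 * Real.log R := by
        unfold Prm.tu Prm.sg
        ring
      rw [h5]
      nlinarith
    have h3 : R / 2 * (3 * R ^ (-(99 / 100) : ℝ) * R ^ (-(1 / 3) : ℝ) * t) ≤
        R / 2 * (3 * R ^ (-(99 / 100) : ℝ) * R ^ (-(1 / 3) : ℝ) * Real.log R) :=
      mul_le_mul_of_nonneg_left (mul_le_mul_of_nonneg_left h2 (by positivity)) (by positivity)
    exact (mul_le_mul_of_nonneg_left h1 (by positivity)).trans (h3.trans (hR2 R hRR2))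

end Pool.Agent.VQ
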