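import Pool.Agent.helper74.VQ.SpecB

/-!
# Project VQ (MP_07c750_an), row VYV: variations of orbits and the linear system
-/

set_option autoImplicit false

open scoped MatrixGroups ContDiff Topology UpperHalfPlane ComplexConjugate ENNReal
open UpperHalfPlane MeasureTheory Filter Set

namespace Pool.Agent.VQ

open Pool.Agent.RS

theorem VYV_XX (U : ℍ → ℝ) (E : ℝ) (g : SL(2, ℝ)) :
    XX U E g = !![rho U E g / 2, kap U E g / 2; -(kap U E g / 2), -(rho U E g / 2)] := by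
  unfold XX A0 K0
  ext i j
  fin_cases i <;> fin_cases j <;> simp <;> ring

/-- The derivatives of the data of the potential along the flow. -/
theorem VYV_flow (hVDN : VDN_stmt) (hVUB : VUB_stmt) (Γ : Subgroup SL(2, ℝ)) (δ : ℝ) (B : ℕ → ℝ) (D : Dyn)
    (hD : OKD Γ δ B D) (hδ : δ ≤ 1 / 10) (E : ℝ) (g : SL(2, ℝ)) (hE : |E| ≤ 1 / 8) (t : ℝ) :
    0 < rho D.U E (D.fl E t g) ∧
    HasDerivAt (fun s => n1 D.U (D.fl E s g)) (hess D.U (D.fl E t g) 0 0 * rho D.U E (D.fl E t g) +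
      kap D.U E (D.fl E t g) * n2 D.U (D.fl E t g)) t ∧
    HasDerivAt (fun s => n2 D.U (D.fl E s g)) (hess D.U (D.fl E t g) 1 0 * rho D.U E (D.fl E t g) -
      kap D.U E (D.fl E t g) * n1 D.U (D.fl E t g)) t ∧
    HasDerivAt (fun s => rho D.U E (D.fl E s g)) (n1 D.U (D.fl E t g) / 2) t ∧
    HasDerivAt (fun s => kap D.U E (D.fl E s g)) ((hess D.U (D.fl E t g) 1 0 * rho D.U E (D.fl E t g) -
      kap D.U E (D.fl E t g) * n1 D.U (D.fl E t g)) / (2 * rho D.U E (D.fl E t g)) -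
      kap D.U E (D.fl E t g) * (n1 D.U (D.fl E t g) / 2) / rho D.U E (D.fl E t g)) t := by
  have hρ : 0 < rho D.U E (D.fl E t g) := by
    have h := ((hVUB Γ δ B D.U hD.pot hδ).2.2.1 E (D.fl E t g) hE).1
    linarith
  have hmat : ∀ i j, HasDerivAt (fun s => (D.fl E s g).1 i j) (((D.fl E t g).1 *
      !![rho D.U E (D.fl E t g) / 2, kap D.U E (D.fl E t g) / 2; -(kap D.U E (D.fl E t g) / 2),
        -(rho D.U E (D.fl E t g) / 2)]) i j) t := by
    intro i j
    have h := hD.dfl E t g hE i j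
    rw [VYV_XX] at h
    exact h
  obtain ⟨-, h1, h2, h3, h4⟩ := hVDN Γ δ B D.U hD.pot hδ (fun s => D.fl E s g) t
    (rho D.U E (D.fl E t g)) (kap D.U E (D.fl E t g) / 2) (-(kap D.U E (D.fl E t g) / 2)) E hE hmat
  have e : (n1 D.U (D.fl E t g) * rho D.U E (D.fl E t g) - n2 D.U (D.fl E t g) *
      (kap D.U E (D.fl E t g) / 2 + -(kap D.U E (D.fl E t g) / 2))) / (2 * rho D.U E (D.fl E t g)) =
      n1 D.U (D.fl E t g) / 2 := by
    field_simp
    ring
  refine ⟨hρ, h1.congr_deriv (by ring), h2.congr_deriv (by ring), h3.congr_deriv e,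
    h4.congr_deriv ?_⟩
  rw [e]
  ring

/-- The computation for the first component of the momentum. -/
theorem VYV_alg (r k a1 a2 h00 h10 x b c dr db dc : ℝ) (hr : 0 < r) (hk : a2 = 2 * (k * r))
    (hdr : dr = (a1 * x - a2 * (b + c)) / (2 * r)) (hbc : db + dc = r * (c - b) + k * x) :
    (((h00 * r + k * a2) * x + a1 * (-(k * (b + c)) + dr) - ((h10 * r - k * a1) * (b + c) + a2 * (db + dc))) * (2 * r) -
      (a1 * x - a2 * (b + c)) * (2 * (a1 / 2))) / (2 * r) ^ 2 =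
    h00 / 2 * x + h10 / 2 * -(b + c) + k * (r * (b - c)) := by
  rw [hbc, hdr, hk]
  field_simp
  ring

theorem VYV_proof (hVDN : VDN_stmt) (hVUB : VUB_stmt) : VYV_stmt := by
  intro Γ δ B D hD hδ E g hE
  have hF := VYV_flow hVDN hVUB Γ δ B D hD hδ E g hE
  have hU := hVUB Γ δ B D.U hD.pot hδ
  refine ⟨?_, ?_⟩
  · intro x b c hV t
    obtain ⟨hρ, h1, h2, h3, -⟩ := hF t
    have hs : hess D.U (D.fl E t g) 0 1 = hess D.U (D.fl E t g) 1 0 := (hU.2.1 (D.fl E t g)).2.2.2.2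
    have hk : kap D.U E (D.fl E t g) * rho D.U E (D.fl E t g) = n2 D.U (D.fl E t g) / 2 :=
      (hU.2.2.1 E (D.fl E t g) hE).2.2.2.2
    obtain ⟨dx, db, dc⟩ := hV t _ _ _ _ rfl rfl rfl rfl
    have dnum := (h1.mul dx).sub (h2.mul (db.add dc))
    have dπ0 := dnum.div (h3.const_mul 2) (by positivity : (2 : ℝ) * rho D.U E (D.fl E t g) ≠ 0)
    have dπ1 := h3.mul (db.sub dc)
    refine ⟨?_, ?_, ?_, ?_⟩
    · show HasDerivAt x ((n1 D.U (D.fl E t g) * x t - n2 D.U (D.fl E t g) * (b t + c t)) /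
        (2 * rho D.U E (D.fl E t g)) + kap D.U E (D.fl E t g) * -(b t + c t)) t
      exact dx.congr_deriv (by ring)
    · show HasDerivAt (fun s => -(b s + c s)) (rho D.U E (D.fl E t g) * (b t - c t) -
        kap D.U E (D.fl E t g) * x t) t
      exact (db.add dc).neg.congr_deriv (by ring)
    · show HasDerivAt (fun s => (n1 D.U (D.fl E s g) * x s - n2 D.U (D.fl E s g) * (b s + c s)) /
        (2 * rho D.U E (D.fl E s g))) (hess D.U (D.fl E t g) 0 0 / 2 * x t +
        hess D.U (D.fl E t g) 0 1 / 2 * -(b t + c t) +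
        kap D.U E (D.fl E t g) * (rho D.U E (D.fl E t g) * (b t - c t))) t
      refine dπ0.congr_deriv ?_
      rw [hs]
      have hn2 : n2 D.U (D.fl E t g) = 2 * (kap D.U E (D.fl E t g) * rho D.U E (D.fl E t g)) := by linarith
      exact VYV_alg _ _ _ _ _ _ _ _ _ _ _ _ hρ hn2 rfl (by ring)
    · show HasDerivAt (fun s => rho D.U E (D.fl E s g) * (b s - c s)) (hess D.U (D.fl E t g) 1 0 / 2 * x t +
        (hess D.U (D.fl E t g) 1 1 / 2 + rho D.U E (D.fl E t g) ^ 2) * -(b t + c t) -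
        kap D.U E (D.fl E t g) * ((n1 D.U (D.fl E t g) * x t - n2 D.U (D.fl E t g) * (b t + c t)) /
          (2 * rho D.U E (D.fl E t g)))) t
      refine dπ1.congr_deriv ?_
      simp only [Pi.sub_apply]
      field_simp
      ring
  · intro t r k dr dk hr hk hdr hdk
    obtain ⟨hρ, h1, h2, h3, h4⟩ := hF t
    have hdr' : dr = n1 D.U (D.fl E t g) / 2 := by
      rw [hdr, hr]
      field_simp
      ring
    have hdk' : dk = (hess D.U (D.fl E t g) 1 0 * rho D.U E (D.fl E t g) -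
        kap D.U E (D.fl E t g) * n1 D.U (D.fl E t g)) / (2 * rho D.U E (D.fl E t g)) -
        kap D.U E (D.fl E t g) * (n1 D.U (D.fl E t g) / 2) / rho D.U E (D.fl E t g) := by
      rw [hdk, hdr', hr, hk]
      ring
    rw [← hdk'] at h4
    rw [← hdr'] at h3
    refine ⟨h3.congr_deriv (by ring), (h4.div_const 2).congr_deriv ?_, (h4.div_const 2).neg.congr_deriv ?_⟩
    · rw [hr, hk]
      ring
    · rw [hr, hk]
      ring

end Pool.Agent.VQ
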